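import Pool.Agent.R494.FG4
import Pool.Agent.R413.SQ.Weak
import Pool.Agent.R413.SJ.ShaQ
import Pool.Agent.Y687.JQ.Sha
import Pool.Agent.Y687.MQ.Fin

/-!
# The weak conjecture of Birch and Swinnerton-Dyer for families of twists of `X_0(14)` and of `X_0(49)` by
# products of primes of a bounded interval with every graph of quadratic residues

Let `𝒩` be a finite set of quadratic twists `E_N` of the non-CM curve `X_0(14)` and of the CM curve
`X_0(49)`, by arbitrary numbers `N` of the classes below (for `X_0(14)`: both signs). Let `k ≥ 0`, and `m`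
a multiple of `56` and of all the `N`. There are prime numbers `q`, `q'` and a constant `C` such that for
every class `r` modulo `m` which is prime to `m`, `1` modulo `8`, a square modulo `7` and modulo the prime
factors of the `N`, there are signed numbers `M ∈ {1, -q}`, `M' ∈ {1, q'}` such that for infinitely many
`n` and for **every** graph `G` with `k` vertices there are prime numbers `p_1 < ⋯ < p_k` in `[n, n + C]`,
all `≡ r` modulo `m`, with `p_j` a nonsquare modulo `p_i` if and only if `{i, j}` is an edge of `G`, with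
the following property for all the curves `E_N` of `𝒩` and for all the `2 ^ k` sets `T`: the twist by
`D = ∏_{i ∈ T} p_i` of `E_{N M}` (of `E_{N M'}` for the twists of `X_0(49)`) has finitely many rational
points and no element of order two in `Ш` if and only if this holds for the curve `E_N` and the subgraph
of `G` induced on `T` has an odd number of rooted spanning forests; and in this case the weak conjecture
holds for it: the Euler product extends to an entire function which does not vanish at `1`, and the set of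
the rational points is finite.

So the `2 ^ k |𝒩|` curves behave in the same way, dictated by the graph and by the curves `E_N` of the
set, and every graph occurs, for primes in the same interval of bounded length, infinitely often. For the
empty graph and curves `E_N` with trivial 2-descent the weak conjecture holds for all the `2 ^ k |𝒩|`
curves.

Proof: the matrices over `𝔽₂` of quadratic symbols which decide on the 2-descent and on the central
values (project MQ for `X_0(14)`; helper428 and helper413 for `X_0(49)`) have two blocks, one of them is the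
one of `E_N` and the other one is the identity plus the Laplacian of the induced graph; primes of a
class in bounded intervals with any given quadratic symbols (`R494/QR8`, after Maynard), and of the same
colour, where the colour of a prime consists of the divisibility by `8` of the number of the points of
`X_0(14)` modulo `p` and of the quartic symbol of `-7`.
-/

set_option autoImplicit false

namespace Pool.Agent.Results.MP_8b7eba_nt.BothCurvesEveryGraph

/-- the coefficient `a` of the twist `y² = x³ + a x + b` by `N` of `X_0(49)` (`c = true`) and of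
`X_0(14)` (`c = false`) -/
def A (c : Bool) (N : ℤ) : ℤ := if c = true then -35 * N ^ 2 else 5805 * N ^ 2

/-- the coefficient `b` of the twist `y² = x³ + a x + b` by `N` of `X_0(49)` (`c = true`) and of
`X_0(14)` (`c = false`) -/
def B (c : Bool) (N : ℤ) : ℤ := if c = true then -98 * N ^ 3 else -285714 * N ^ 3

/-- the twist by `N` over `ℚ` -/
def E (c : Bool) (N : ℤ) : WeierstrassCurve ℚ :=
  { a₁ := 0, a₂ := 0, a₃ := 0, a₄ := (A c N : ℚ), a₆ := (B c N : ℚ) }

/-- `E_N(ℚ)` is finite and `Ш(E_N/ℚ)` has no element of order two -/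
def RankZeroShaTwo (c : Bool) (N : ℤ) : Prop :=
  Finite (E c N).toAffine.Point ∧ ∀ x : Pool.Agent.TH841.NF.D.Sha (E c N), 2 • x = 0 → x = 0

/-- `f` is an entire function which equals on `Re s > 3 / 2` the Euler product of
`y² = x³ + a x + b` over the primes `p ∤ 2 (4 a³ + 27 b²)`, as in the frozen statement -/
def IsL (a b : ℤ) (f : ℂ → ℂ) : Prop :=
  Differentiable ℂ f ∧ ∀ s : ℂ, (3 : ℝ) / 2 < s.re →
    HasProd
      (fun p : {p : ℕ // p.Prime ∧ ¬ ((p : ℤ) ∣ 2 * (4 * a ^ 3 + 27 * b ^ 2))} =>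
        ((1 : ℂ)
          - ((((p.1 : ℤ) - (Nat.card {q : ZMod p.1 × ZMod p.1 //
                q.2 ^ 2 = q.1 ^ 3 + (a : ZMod p.1) * q.1 + (b : ZMod p.1)} : ℤ)) : ℤ) : ℂ)
              * ((p.1 : ℂ) ^ (-s))
          + (p.1 : ℂ) ^ (1 - 2 * s))⁻¹)
      (f s)

/-- the conclusion of the frozen statement for the twist by `N`, in the case of rank zero: the
`L`-function exists, it does not vanish at `1`, and there are finitely many rational points -/
def WeakRankZero (c : Bool) (N : ℤ) : Prop :=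
  4 * A c N ^ 3 + 27 * B c N ^ 2 ≠ 0 ∧ (∃ f : ℂ → ℂ, IsL (A c N) (B c N) f) ∧
    (∀ f : ℂ → ℂ, IsL (A c N) (B c N) f → f 1 ≠ 0) ∧
    {q : ℚ × ℚ | q.2 ^ 2 = q.1 ^ 3 + (A c N : ℚ) * q.1 + (B c N : ℚ)}.Finite

/-- the class of the twists of `X_0(49)`: `N ≥ 1` is squarefree and all its prime factors are `1`
modulo `4` -/
def Class49 (N : ℤ) : Prop := 0 < N ∧ Squarefree N ∧ ∀ p : ℕ, p.Prime → (p : ℤ) ∣ N → p % 4 = 1

/-- the class of the twists of `X_0(14)`: `N` is squarefree, positive or negative, `1` modulo `4` and a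
square modulo `7`, and all its prime factors `p ≠ 3` split completely in `ℚ(i, √2, √-7)`, or they are
inert in `ℚ(√2)` and in `ℚ(√-7)` -/
def Class14 (N : ℤ) : Prop := Squarefree N ∧ N % 4 = 1 ∧ (N % 7 = 1 ∨ N % 7 = 2 ∨ N % 7 = 4) ∧
  ∀ p : ℕ, p.Prime → (p : ℤ) ∣ N → p ≠ 3 ∧
    ((p.Prime ∧ p % 8 = 1 ∧ (p % 7 = 1 ∨ p % 7 = 2 ∨ p % 7 = 4)) ∨
      (p.Prime ∧ (p % 8 = 3 ∨ p % 8 = 5) ∧ (p % 7 = 3 ∨ p % 7 = 5 ∨ p % 7 = 6)))

/-- the two classes -/
def Adm (c : Bool) (N : ℤ) : Prop := if c = true then Class49 N else Class14 N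

open Classical in
/-- The identity plus the Laplacian of the subgraph of `G` induced on `T`, modulo two. Its determinant is
the number of the rooted spanning forests of this subgraph modulo two. -/
noncomputable def forest {k : ℕ} (G : SimpleGraph (Fin k)) (T : Finset (Fin k)) :
    Matrix T T (ZMod 2) :=
  Matrix.of fun i j => if i = j then 1 + ((T.filter fun l => G.Adj i l).card : ZMod 2)
    else if G.Adj i j then 1 else 0

section proof

open Pool.Agent.Y687.MQ (AdmD matD SP)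
open Pool.Agent.Y687 (NN)
open Pool.Agent.Results.MP_4a9ea6_nt.TwoPartTwistsX49 (mat split nonfourth nonsq)
open Pool.Agent.R494.FG (fm mat14 mat49 primesG2 aux_prime)

/-- the criterion for `X_0(14)` -/
theorem crit14 {D : ℤ} (h : AdmD D) : RankZeroShaTwo false D ↔ (matD D).det ≠ 0 := by
  rw [← Pool.Agent.Y687.JQ.rzs_iff h]
  unfold RankZeroShaTwo Pool.Agent.Y687.JQ.RZS
  have e : E false D = Pool.Agent.Z702.sh (5805 * D ^ 2) (-285714 * D ^ 3) := by
    unfold E A B Pool.Agent.Z702.sh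
    simp
  rw [e, ← Pool.Agent.R413.SJ.ShaQ.two_iff]
  refine and_congr Iff.rfl (forall_congr' fun x => ?_)
  rw [two_nsmul]

/-- the weak conjecture for `X_0(14)` -/
theorem weak14 {D : ℤ} (h : AdmD D) (hd : (matD D).det ≠ 0) : WeakRankZero false D := by
  obtain ⟨⟨f, hf, hfp, hf1⟩, hfin⟩ := Pool.Agent.Y687.MQ.WB_D h hd
  have eA : A false D = 5805 * D ^ 2 := by unfold A; simp
  have eB : B false D = -285714 * D ^ 3 := by unfold B; simp
  unfold WeakRankZero
  rw [eA, eB]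
  have hD : D ≠ 0 := h.1.ne_zero
  refine ⟨?_, ⟨f, hf, hfp⟩, ?_, hfin⟩
  · have e : 4 * (5805 * D ^ 2) ^ 3 + 27 * (-285714 * D ^ 3) ^ 2 =
        (4 * 5805 ^ 3 + 27 * 285714 ^ 2) * D ^ 6 := by ring
    rw [e]
    exact mul_ne_zero (by norm_num) (pow_ne_zero 6 hD)
  · rintro g ⟨hg1, hg2⟩
    rw [Pool.Agent.Y687.unique_f hg1 hf hg2 hfp]
    exact hf1

/-- the criterion for `X_0(49)` -/
theorem crit49 {D : ℕ} (h : Pool.Agent.Results.MP_4a9ea6_nt.TwoPartTwistsX49.Adm D) :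
    RankZeroShaTwo true (D : ℤ) ↔ (mat D).det ≠ 0 := by
  rw [← Pool.Agent.R413.SQ.Cor.crit h]
  unfold RankZeroShaTwo
  have e : E true (D : ℤ) = Pool.Agent.R413.SQ.Cor.ES D := by
    unfold E A B Pool.Agent.R413.SQ.Cor.ES Pool.Agent.R413.SQ.Cor.a Pool.Agent.R413.SQ.Cor.b
    simp
  rw [e]

/-- the weak conjecture for `X_0(49)` -/
theorem weak49 {D : ℕ} (h : Pool.Agent.Results.MP_4a9ea6_nt.TwoPartTwistsX49.Adm D)
    (hd : (mat D).det ≠ 0) : WeakRankZero true (D : ℤ) := by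
  obtain ⟨⟨f, h1, h2, h3⟩, h4⟩ := Pool.Agent.R413.SQ.Cor.weak h hd
  have eA : A true (D : ℤ) = Pool.Agent.R413.SQ.Cor.a D := by
    unfold A Pool.Agent.R413.SQ.Cor.a; simp
  have eB : B true (D : ℤ) = Pool.Agent.R413.SQ.Cor.b D := by
    unfold B Pool.Agent.R413.SQ.Cor.b; simp
  unfold WeakRankZero
  rw [eA, eB]
  refine ⟨?_, ⟨f, h1, h2⟩, ?_, h4⟩
  · have e : 4 * Pool.Agent.R413.SQ.Cor.a D ^ 3 + 27 * Pool.Agent.R413.SQ.Cor.b D ^ 2 =
        2 ^ 8 * 7 ^ 3 * (D : ℤ) ^ 6 := by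
      unfold Pool.Agent.R413.SQ.Cor.a Pool.Agent.R413.SQ.Cor.b
      ring
    rw [e]
    have hD : (D : ℤ) ≠ 0 := by exact_mod_cast h.1.ne_zero
    exact mul_ne_zero (by norm_num) (pow_ne_zero 6 hD)
  · rintro g ⟨hg1, hg2⟩
    rw [Pool.Agent.Y687.unique_f hg1 h1 hg2 h2]
    exact h3

lemma class14_iff (N : ℤ) : Class14 N ↔ AdmD N := Iff.rfl

lemma class49 {N : ℤ} (h : Class49 N) : ∃ D : ℕ, N = D ∧
    Pool.Agent.Results.MP_4a9ea6_nt.TwoPartTwistsX49.Adm D := by
  obtain ⟨h1, h2, h3⟩ := h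
  lift N to ℕ using h1.le
  refine ⟨N, rfl, Int.squarefree_natCast.1 h2, fun p hp => ?_⟩
  exact h3 p (Nat.prime_of_mem_primeFactors hp)
    (Int.natCast_dvd_natCast.2 (Nat.dvd_of_mem_primeFactors hp))

open Finset in
/-- the product of the primes `≡ 1 mod 4` and different from `7` which divide one of the numbers -/
theorem aux_prod (m : ℕ) (hm : 0 < m) (P : ℕ → Prop) (hP : ∀ l, l.Prime → P l → l ≠ 2 ∧ l ≠ 7) (a B : ℕ)
    (ha : a.Coprime 56) : ∃ q > B, q.Prime ∧ q % 56 = a % 56 ∧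
      ∀ l, l.Prime → l ∣ m → P l → IsSquare ((q : ℕ) : ZMod l) := by
  classical
  obtain ⟨q, h1, h2, h3, h4⟩ := aux_prime a (∏ l ∈ m.primeFactors.filter P, l) B ha (by
    refine Nat.Coprime.prod_left fun l hl => ?_
    obtain ⟨h5, h6⟩ := mem_filter.1 hl
    have hlp := Nat.prime_of_mem_primeFactors h5
    rw [hlp.coprime_iff_not_dvd]
    intro h7
    obtain ⟨h8, h9⟩ := hP l hlp h6
    have h10 : l ∣ 2 ^ 3 * 7 := by simpa using h7
    rcases (hlp.dvd_mul).1 h10 with h11 | h11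
    · exact h8 ((Nat.prime_dvd_prime_iff_eq hlp Nat.prime_two).1 (hlp.dvd_of_dvd_pow h11))
    · exact h9 ((Nat.prime_dvd_prime_iff_eq hlp (by norm_num)).1 h11))
  refine ⟨q, h1, h2, h3, fun l hl hlm hlP => ?_⟩
  have h5 : q ≡ 1 [MOD l] := h4.of_dvd (Finset.dvd_prod_of_mem _
    (mem_filter.2 ⟨Nat.mem_primeFactors.2 ⟨hl, hlm, hm.ne'⟩, hlP⟩))
  rw [(ZMod.natCast_eq_natCast_iff _ _ _).2 h5, Nat.cast_one]
  exact ⟨1, by ring⟩

theorem main (𝒩 : Finset (Bool × ℤ)) (h𝒩 : ∀ e ∈ 𝒩, Adm e.1 e.2) (k m : ℕ) (hm : 0 < m)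
    (h56 : 56 ∣ m) (h𝒩m : ∀ e ∈ 𝒩, e.2 ∣ (m : ℤ)) :
    ∃ q q' C : ℕ, (q.Prime ∧ ¬ q ∣ m) ∧ (q'.Prime ∧ ¬ q' ∣ m) ∧ ∀ r : ℕ, r.Coprime m → r % 8 = 1 →
      (r % 7 = 1 ∨ r % 7 = 2 ∨ r % 7 = 4) →
      (∀ e ∈ 𝒩, ∀ l : ℕ, l.Prime → (l : ℤ) ∣ e.2 → IsSquare ((r : ℕ) : ZMod l)) →
      ∃ M : Bool → ℤ, (M false = 1 ∨ M false = -q) ∧ (M true = 1 ∨ M true = q') ∧
        {n : ℕ | ∀ G : SimpleGraph (Fin k), ∃ p : Fin k → ℕ, StrictMono p ∧
          (∀ i, (p i).Prime ∧ p i ≡ r [MOD m] ∧ n ≤ p i ∧ p i ≤ n + C) ∧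
          (∀ i j, i ≠ j → (G.Adj i j ↔ ¬ IsSquare ((p j : ℕ) : ZMod (p i)))) ∧
          ∀ e ∈ 𝒩, ∀ T : Finset (Fin k),
            Adm e.1 (e.2 * M e.1 * ∏ i ∈ T, (p i : ℤ)) ∧
            (RankZeroShaTwo e.1 (e.2 * M e.1 * ∏ i ∈ T, (p i : ℤ)) ↔
              RankZeroShaTwo e.1 e.2 ∧ (forest G T).det ≠ 0) ∧
            (RankZeroShaTwo e.1 (e.2 * M e.1 * ∏ i ∈ T, (p i : ℤ)) →
              WeakRankZero e.1 (e.2 * M e.1 * ∏ i ∈ T, (p i : ℤ)))}.Infinite := by
  classical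
  obtain ⟨q, hqB, hq, hq56, hql⟩ := aux_prod m hm (fun l => l % 8 = 1 ∧ l % 7 ≠ 0)
    (fun l _ h => ⟨by omega, by rintro rfl; simp at h⟩) 3 m (by norm_num)
  obtain ⟨q', hqB', hq', hq56', hql'⟩ := aux_prod m hm (fun l => l % 4 = 1 ∧ l % 7 ≠ 0)
    (fun l _ h => ⟨by omega, by rintro rfl; simp at h⟩) 5 (m + q) (by norm_num)
  have hqm : ¬ q ∣ m := fun h => absurd (Nat.le_of_dvd hm h) (by omega)
  have hqm' : ¬ q' ∣ m := fun h => absurd (Nat.le_of_dvd hm h) (by omega)
  obtain ⟨C, hC⟩ := primesG2 k m q q' 4 hm ((by norm_num : 4 ∣ 56).trans h56) (by norm_num) hq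
    (by omega) hqm hq' (by omega) hqm' (by omega)
  refine ⟨q, q', C, ⟨hq, hqm⟩, ⟨hq', hqm'⟩, fun r hr hr8 hr7 hrN => ?_⟩
  obtain ⟨s, hs⟩ := hC r hr (by omega) fun x =>
    (if 8 ∣ NN 1 x then 2 else 0) + (if nonfourth x = 1 then 1 else 0)
  -- the colours
  obtain ⟨M, hM14, hM49⟩ : ∃ M : Bool → ℤ,
      ((M false = 1 ∧ ∀ x : ℕ, ((if 8 ∣ NN 1 x then 2 else 0) +
        (if nonfourth x = 1 then 1 else 0) : Fin 4) = s → ¬ 8 ∣ NN 1 x) ∨
      (M false = -q ∧ ∀ x : ℕ, ((if 8 ∣ NN 1 x then 2 else 0) +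
        (if nonfourth x = 1 then 1 else 0) : Fin 4) = s → 8 ∣ NN 1 x)) ∧
      ((M true = 1 ∧ ∀ x : ℕ, ((if 8 ∣ NN 1 x then 2 else 0) +
        (if nonfourth x = 1 then 1 else 0) : Fin 4) = s → nonfourth x = 1) ∨
      (M true = q' ∧ ∀ x : ℕ, ((if 8 ∣ NN 1 x then 2 else 0) +
        (if nonfourth x = 1 then 1 else 0) : Fin 4) = s → nonfourth x = 0)) := by
    have h01 : ∀ x, nonfourth x = 0 ∨ nonfourth x = 1 := by
      intro x
      unfold nonfourth
      split_ifs
      · exact Or.inl rfl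
      · exact Or.inr rfl
    refine ⟨fun c => if c = true then (if s = 1 ∨ s = 3 then 1 else (q' : ℤ)) else
      (if s = 0 ∨ s = 1 then 1 else -(q : ℤ)), ?_, ?_⟩
    · by_cases h : s = 0 ∨ s = 1
      · refine Or.inl ⟨by simp [h], fun x hx h8 => ?_⟩
        rw [if_pos h8] at hx
        split_ifs at hx
        · rcases h with rfl | rfl <;> exact absurd hx (by decide)
        · rcases h with rfl | rfl <;> exact absurd hx (by decide)
      · refine Or.inr ⟨by simp [h], fun x hx => ?_⟩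
        by_contra h8
        rw [if_neg h8] at hx
        refine h ?_
        split_ifs at hx
        · exact Or.inr hx.symm
        · exact Or.inl hx.symm
    · by_cases h : s = 1 ∨ s = 3
      · refine Or.inl ⟨by simp [h], fun x hx => ?_⟩
        by_contra h8
        rw [if_neg h8] at hx
        split_ifs at hx
        · rcases h with rfl | rfl <;> exact absurd hx (by decide)
        · rcases h with rfl | rfl <;> exact absurd hx (by decide)
      · refine Or.inr ⟨by simp [h], fun x hx => ?_⟩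
        rcases h01 x with h1 | h1
        · exact h1
        · exfalso
          rw [if_pos h1] at hx
          refine h ?_
          split_ifs at hx
          · exact Or.inr (by rw [← hx]; decide)
          · exact Or.inl (by rw [← hx]; decide)
  refine ⟨M, hM14.imp (fun h => h.1) (fun h => h.1), hM49.imp (fun h => h.1) (fun h => h.1),
    hs.mono fun n hn G => ?_⟩
  obtain ⟨p, hp, h3, h5⟩ := hn G
  refine ⟨p, hp, fun i => ⟨(h3 i).1, (h3 i).2.1, (h3 i).2.2.1, (h3 i).2.2.2.1⟩, h5, ?_⟩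
  rintro ⟨c, N⟩ hN T
  have hadm := h𝒩 _ hN
  have hNm : N ∣ (m : ℤ) := h𝒩m _ hN
  have hrN' := hrN _ hN
  have hf : forest G T = fm G T := rfl
  have hfin : ∀ {X Y Z : ZMod 2}, X = Y * Z → (X ≠ 0 ↔ Y ≠ 0 ∧ Z ≠ 0) := by
    intro X Y Z h
    rw [h, mul_ne_zero_iff]
  cases c
  · -- `X_0(14)`
    have hNd : AdmD N := (class14_iff N).1 (by
      have h := hadm
      unfold Adm at h
      simpa using h)
    have hNn : N.natAbs ∣ m := Int.natAbs_dvd_natAbs.2 hNm |>.trans (by rw [Int.natAbs_natCast])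
    have hlN : ∀ l ∈ N.natAbs.primeFactors, l.Prime ∧ (l : ℤ) ∣ N := fun l hl =>
      ⟨Nat.prime_of_mem_primeFactors hl, Int.natCast_dvd.2 (Nat.dvd_of_mem_primeFactors hl)⟩
    have hMc : (M false * N = N ∧ ∀ i, ¬ 8 ∣ NN 1 (p i)) ∨
        (M false * N = -(q * N) ∧ ∀ i, 8 ∣ NN 1 (p i)) := by
      rcases hM14 with ⟨h6, h7⟩ | ⟨h6, h7⟩
      · exact Or.inl ⟨by rw [h6, one_mul], fun i => h7 _ (h3 i).2.2.2.2.1⟩
      · exact Or.inr ⟨by rw [h6, neg_mul], fun i => h7 _ (h3 i).2.2.2.2.1⟩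
    obtain ⟨h6, h7⟩ := mat14 G T hp.injective (fun i => (h3 i).1) h56
      (fun i => (h3 i).2.1) hr8 hr7 h5 hNd hNn hr
      (fun l hl => hrN' l (hlN l hl).1 (hlN l hl).2)
      ⟨hq, by omega, by omega⟩ (by
        rintro rfl
        have : 56 ≤ m := Nat.le_of_dvd hm h56
        omega) (by omega) hqm
      (fun l hl => by
        obtain ⟨h8, h9⟩ := Finset.mem_filter.1 hl
        obtain ⟨h10, h11⟩ := hlN l h8
        refine hql l h10 ((Nat.dvd_of_mem_primeFactors h8).trans hNn) ⟨h9, ?_⟩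
        rcases (hNd.2.2.2 l h10 h11).2 with h12 | h12
        · have := h12.2.2
          omega
        · have := h12.2.1
          omega)
      (fun i => (h3 i).2.2.2.2.2.1) hMc
    rw [← hf] at h7
    have e : N * M false * ∏ i ∈ T, (p i : ℤ) = M false * N * ∏ i ∈ T, (p i : ℤ) := by ring
    show Adm false (N * M false * ∏ i ∈ T, (p i : ℤ)) ∧
      (RankZeroShaTwo false (N * M false * ∏ i ∈ T, (p i : ℤ)) ↔
        RankZeroShaTwo false N ∧ (forest G T).det ≠ 0) ∧
      (RankZeroShaTwo false (N * M false * ∏ i ∈ T, (p i : ℤ)) →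
        WeakRankZero false (N * M false * ∏ i ∈ T, (p i : ℤ)))
    rw [e]
    refine ⟨?_, ?_, fun h8 => weak14 h6 ((crit14 h6).1 h8)⟩
    · unfold Adm
      simpa using (class14_iff _).2 h6
    · rw [crit14 h6, crit14 hNd]
      exact hfin h7
  · -- `X_0(49)`
    have hNc : Class49 N := by
      have h := hadm
      unfold Adm at h
      simpa using h
    obtain ⟨D, rfl, hD⟩ := class49 hNc
    have hDm : D ∣ m := Int.natCast_dvd_natCast.1 hNm
    obtain ⟨M', hM'⟩ : ∃ M' : ℕ, M true * (D : ℤ) = M' := by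
      rcases hM49 with ⟨h6, _⟩ | ⟨h6, _⟩
      · exact ⟨D, by rw [h6, one_mul]⟩
      · exact ⟨q' * D, by rw [h6]; push_cast; rfl⟩
    have hMc : (M' = D ∧ ∀ i, nonfourth (p i) = 1) ∨ (M' = q' * D ∧ ∀ i, nonfourth (p i) = 0) := by
      rcases hM49 with ⟨h6, h7⟩ | ⟨h6, h7⟩
      · refine Or.inl ⟨?_, fun i => h7 _ (h3 i).2.2.2.2.1⟩
        rw [h6, one_mul] at hM'
        exact_mod_cast hM'.symm
      · refine Or.inr ⟨?_, fun i => h7 _ (h3 i).2.2.2.2.1⟩
        rw [h6] at hM'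
        exact_mod_cast hM'.symm
    obtain ⟨h6, h7⟩ := mat49 G T hp.injective (fun i => (h3 i).1)
      ((by norm_num : 28 ∣ 56).trans h56)
      (fun i => (h3 i).2.1) (by omega) hr7 h5 hD hDm hr
      (fun l hl => hrN' l (Nat.prime_of_mem_primeFactors hl)
        (Int.natCast_dvd_natCast.2 (Nat.dvd_of_mem_primeFactors hl)))
      hq' (by omega) (by omega) hqm'
      (fun l hl => by
        obtain ⟨h8, h9⟩ := Finset.mem_filter.1 hl
        have h10 := Nat.prime_of_mem_primeFactors h8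
        have h11 := hD.2 l h8
        refine hql' l h10 ((Nat.dvd_of_mem_primeFactors h8).trans hDm) ⟨h11, ?_⟩
        have h12 := (Pool.Agent.R428.Q0.sq7_iff h10 h11).1 h9
        omega)
      (fun i => (h3 i).2.2.2.2.2.2) hMc
    rw [← hf] at h7
    have e : (D : ℤ) * M true * ∏ i ∈ T, (p i : ℤ) = ((M' * ∏ i ∈ T, p i : ℕ) : ℤ) := by
      rw [mul_comm (D : ℤ), hM']
      push_cast
      rfl
    show Adm true ((D : ℤ) * M true * ∏ i ∈ T, (p i : ℤ)) ∧
      (RankZeroShaTwo true ((D : ℤ) * M true * ∏ i ∈ T, (p i : ℤ)) ↔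
        RankZeroShaTwo true (D : ℤ) ∧ (forest G T).det ≠ 0) ∧
      (RankZeroShaTwo true ((D : ℤ) * M true * ∏ i ∈ T, (p i : ℤ)) →
        WeakRankZero true ((D : ℤ) * M true * ∏ i ∈ T, (p i : ℤ)))
    rw [e]
    refine ⟨?_, ?_, fun h8 => weak49 h6 ((crit49 h6).1 h8)⟩
    · unfold Adm
      rw [if_pos rfl]
      refine ⟨?_, Int.squarefree_natCast.2 h6.1, fun l hl hld => ?_⟩
      · exact_mod_cast Nat.pos_of_ne_zero h6.1.ne_zero
      · exact h6.2 l (Nat.mem_primeFactors.2 ⟨hl, Int.natCast_dvd_natCast.1 hld, h6.1.ne_zero⟩)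
    · rw [crit49 h6, crit49 hD]
      exact hfin h7


end proof

/-- **The weak conjecture for finite families of twists of `X_0(14)` and of `X_0(49)`, multiplied by all
the products of primes of a bounded interval with any given graph of quadratic residues.** -/
theorem result (𝒩 : Finset (Bool × ℤ)) (h𝒩 : ∀ e ∈ 𝒩, Adm e.1 e.2) (k m : ℕ) (hm : 0 < m)
    (h56 : 56 ∣ m) (h𝒩m : ∀ e ∈ 𝒩, e.2 ∣ (m : ℤ)) :
    ∃ q q' C : ℕ, (q.Prime ∧ ¬ q ∣ m) ∧ (q'.Prime ∧ ¬ q' ∣ m) ∧ ∀ r : ℕ, r.Coprime m → r % 8 = 1 →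
      (r % 7 = 1 ∨ r % 7 = 2 ∨ r % 7 = 4) →
      (∀ e ∈ 𝒩, ∀ l : ℕ, l.Prime → (l : ℤ) ∣ e.2 → IsSquare ((r : ℕ) : ZMod l)) →
      ∃ M : Bool → ℤ, (M false = 1 ∨ M false = -q) ∧ (M true = 1 ∨ M true = q') ∧
        {n : ℕ | ∀ G : SimpleGraph (Fin k), ∃ p : Fin k → ℕ, StrictMono p ∧
          (∀ i, (p i).Prime ∧ p i ≡ r [MOD m] ∧ n ≤ p i ∧ p i ≤ n + C) ∧
          (∀ i j, i ≠ j → (G.Adj i j ↔ ¬ IsSquare ((p j : ℕ) : ZMod (p i)))) ∧
          ∀ e ∈ 𝒩, ∀ T : Finset (Fin k),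
            Adm e.1 (e.2 * M e.1 * ∏ i ∈ T, (p i : ℤ)) ∧
            (RankZeroShaTwo e.1 (e.2 * M e.1 * ∏ i ∈ T, (p i : ℤ)) ↔
              RankZeroShaTwo e.1 e.2 ∧ (forest G T).det ≠ 0) ∧
            (RankZeroShaTwo e.1 (e.2 * M e.1 * ∏ i ∈ T, (p i : ℤ)) →
              WeakRankZero e.1 (e.2 * M e.1 * ∏ i ∈ T, (p i : ℤ)))}.Infinite :=
  main 𝒩 h𝒩 k m hm h56 h𝒩m

end Pool.Agent.Results.MP_8b7eba_nt.BothCurvesEveryGraph
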