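import Pool.Agent.R376.NerC
import Pool.Agent.R376.NerD
import Pool.Agent.R376.NerE

/-!
# The conjecture of Birch and Swinnerton-Dyer as a comparison of two counts

Let `C : y² = x³ + a x + b` be an elliptic curve over `ℚ`, `a, b ∈ ℤ`, let `N_p` be the number of
affine points modulo the good primes `p ∤ 2Δ`, let `r` be the rank of `C(ℚ)` and `m` the order of
`L(C, s)` at `s = 1`. Let `N(B)` be the number of the points of `C(ℚ)` of height at most `B`: the
point at infinity, and the points `(x, y)` such that the numerator and the denominator of `x` are at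
most `B`. Fix `c > π/2` and let

`P(B) = ∏_{p ∤ 2Δ} ((N_p + 1)/p) ^ w(log p / log B)`, `w(u) = cos (c u) / Γ (1 + u)`,

an absolutely convergent product (the original product of Birch and Swinnerton-Dyer is the one with
the sharp cut-off `w = 1` on `[0, 1]`). Let `P'(B)` be the product with the second order factors
`exp ((w(u) - w(2u)) (a_p² - 2p) / (2p²))`, `u = log p / log B`. Then, for EVERY elliptic curve over
`ℚ`, without any hypothesis on zeros of `L`-functions:

`N(B)² / P'(B) ∼ κ (log B) ^ (r - m)`, with `κ > 0`,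

and `N(B)² ≍ (log B) ^ (r - m) P(B)`. So the number of the rational points is compared with the
local densities, and neither the group structure of `C(ℚ)` nor the `L`-series occurs:

* `rank C(ℚ) ≤ ord L(C, s)` if and only if `N(B)² ≪ P(B)`;
* `ord L(C, s) ≤ rank C(ℚ)` if and only if `P(B) ≪ N(B)²`;
* `ord L(C, s) = rank C(ℚ)` if and only if `N(B)² / P'(B)` has a limit in `(0, ∞)`, and if and only
  if `N(B)²` and `P(B)` differ at most by the factor `(log B) ^ θ` for some `θ < 1` and for some
  arbitrarily large `B`;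
* `C(ℚ)` is infinite if and only if `N(B)` is unbounded, `L(C, 1) = 0` if and only if `P(B)` is
  unbounded: the weak conjecture says that they are bounded for the same curves.

Proof. The law for `P(B)` and `P'(B)` is the one of `MP_696deb_nt/AnalyticRankLaw` and
`MP_92892c_nt/RotatedLeadingTerm` (starting results). The law for `N(B)` is Néron's theorem
`N(B) ∼ ν (log B) ^ (r / 2)`, proved here for all `a`, `b`: Mordell-Weil (starting library), the
approximate parallelogram law, the canonical height as the square of a Euclidean norm, and the number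
of points of a lattice in a ball.
-/

set_option autoImplicit false

open Filter Topology

namespace Pool.Agent.Results.MP_8b7eba_nt.CountingForm

/-- The number of affine points of `y² = x³ + a x + b` modulo `p`. -/
noncomputable def pointCount (a b : ℤ) (p : ℕ) : ℕ :=
  Nat.card {q : ZMod p × ZMod p // q.2 ^ 2 = q.1 ^ 3 + (a : ZMod p) * q.1 + (b : ZMod p)}

/-- `p` is a prime not dividing `2 Δ`, `Δ = -4 a³ - 27 b²`. -/
def GoodPrime (a b : ℤ) (p : ℕ) : Prop :=
  p.Prime ∧ ¬ ((p : ℤ) ∣ 2 * (-4 * a ^ 3 - 27 * b ^ 2))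

open Classical in
/-- `F` is an entire function which for `Re s > 3/2` is the incomplete `L`-series
`∏_{p ∤ 2Δ} (1 - a_p p^{-s} + p^{1-2s})⁻¹`, `a_p = p - N_p`, of `y² = x³ + a x + b`. -/
def IsLSeries (a b : ℤ) (F : ℂ → ℂ) : Prop :=
  Differentiable ℂ F ∧ ∀ s : ℂ, (3 : ℝ) / 2 < s.re →
    HasProd (fun p : ℕ => if GoodPrime a b p then
      (1 - ((p : ℂ) - (pointCount a b p : ℂ)) * (p : ℂ) ^ (-s) + (p : ℂ) ^ (1 - 2 * s))⁻¹ else 1)
      (F s)

/-- The group of the rational points of `y² = x³ + a x + b`. -/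
abbrev Points (a b : ℤ) : Type :=
  WeierstrassCurve.Affine.Point (WeierstrassCurve.toAffine
    ({ a₁ := 0, a₂ := 0, a₃ := 0, a₄ := (a : ℚ), a₆ := (b : ℚ) } : WeierstrassCurve ℚ))

/-- The rank of the group of the rational points. -/
noncomputable def rank (a b : ℤ) : ℕ := Module.finrank ℤ (Points a b)

/-- The number of the rational points of height at most `B`: the point at infinity and the rational
solutions `(x, y)` of `y² = x³ + a x + b` such that the numerator and the denominator of `x` are at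
most `B` in absolute value. -/
noncomputable def count (a b : ℤ) (B : ℝ) : ℕ :=
  1 + Nat.card {q : ℚ × ℚ // q.2 ^ 2 = q.1 ^ 3 + a * q.1 + b ∧
    ((max q.1.num.natAbs q.1.den : ℕ) : ℝ) ≤ B}

/-- The weight `w(u) = cos (c u) / Γ (1 + u)`. -/
noncomputable def weight (c u : ℝ) : ℝ := Real.cos (c * u) / Real.Gamma (1 + u)

open Classical in
/-- The product `P(B)` of the local densities `(N_p + 1) / p` with the exponents
`w(log p / log B)`. -/
noncomputable def localProduct (a b : ℤ) (c B : ℝ) : ℝ :=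
  ∏' p : ℕ, if GoodPrime a b p then
    (((pointCount a b p : ℝ) + 1) / p) ^ weight c (Real.log p / Real.log B) else 1

open Classical in
/-- The product `P'(B)`: the same with the second order factors
`exp ((w(u) - w(2u)) (a_p² - 2p) / (2p²))`, `u = log p / log B`, `a_p = p - N_p`. -/
noncomputable def correctedProduct (a b : ℤ) (c B : ℝ) : ℝ :=
  ∏' p : ℕ, if GoodPrime a b p then
    (((pointCount a b p : ℝ) + 1) / p) ^ weight c (Real.log p / Real.log B) *
      Real.exp ((weight c (Real.log p / Real.log B) - weight c (2 * (Real.log p / Real.log B))) *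
        ((((p : ℝ) - pointCount a b p) ^ 2 - 2 * p) / (2 * (p : ℝ) ^ 2))) else 1

open Classical in
/-- **The number of rational points against the local densities, for every elliptic curve.** -/
theorem result (a b : ℤ) (hΔ : 4 * a ^ 3 + 27 * b ^ 2 ≠ 0) (F : ℂ → ℂ) (hF : IsLSeries a b F)
    (c : ℝ) (hc : Real.pi / 2 < c) :
    -- the products converge
    (∀ B : ℝ, 1 < B → Multipliable fun p : ℕ => if GoodPrime a b p then
      (((pointCount a b p : ℝ) + 1) / p) ^ weight c (Real.log p / Real.log B) else 1) ∧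
    (∀ B : ℝ, Real.exp 1 ≤ B → Multipliable fun p : ℕ => if GoodPrime a b p then
      (((pointCount a b p : ℝ) + 1) / p) ^ weight c (Real.log p / Real.log B) *
      Real.exp ((weight c (Real.log p / Real.log B) - weight c (2 * (Real.log p / Real.log B))) *
        ((((p : ℝ) - pointCount a b p) ^ 2 - 2 * p) / (2 * (p : ℝ) ^ 2))) else 1) ∧
    ∃ m : ℕ, analyticOrderAt F 1 = m ∧
      -- the asymptotic law
      (∃ κ : ℝ, 0 < κ ∧ Tendsto (fun B : ℝ => (count a b B : ℝ) ^ 2 / correctedProduct a b c B *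
        Real.log B ^ ((m : ℝ) - rank a b)) atTop (𝓝 κ)) ∧
      (∃ A : ℝ, 1 ≤ A ∧ ∀ᶠ B : ℝ in atTop,
        A⁻¹ * Real.log B ^ ((rank a b : ℝ) - m) * localProduct a b c B ≤ (count a b B : ℝ) ^ 2 ∧
        (count a b B : ℝ) ^ 2 ≤ A * Real.log B ^ ((rank a b : ℝ) - m) * localProduct a b c B) ∧
      -- the two inequalities
      (rank a b ≤ m ↔ ∃ A : ℝ, ∀ᶠ B : ℝ in atTop,
        (count a b B : ℝ) ^ 2 ≤ A * localProduct a b c B) ∧
      (m ≤ rank a b ↔ ∃ A : ℝ, ∀ᶠ B : ℝ in atTop,
        localProduct a b c B ≤ A * (count a b B : ℝ) ^ 2) ∧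
      -- the rank form
      (m = rank a b ↔ ∃ κ : ℝ, 0 < κ ∧ Tendsto (fun B : ℝ =>
        (count a b B : ℝ) ^ 2 / correctedProduct a b c B) atTop (𝓝 κ)) ∧
      (m = rank a b ↔ ∃ θ : ℝ, θ < 1 ∧ ∃ᶠ B : ℝ in atTop,
        (count a b B : ℝ) ^ 2 ≤ Real.log B ^ θ * localProduct a b c B ∧
        localProduct a b c B ≤ Real.log B ^ θ * (count a b B : ℝ) ^ 2) ∧
      -- the weak form
      (Infinite (Points a b) ↔ ¬ ∃ A : ℝ, ∀ᶠ B : ℝ in atTop, (count a b B : ℝ) ≤ A) ∧
      (F 1 = 0 ↔ ¬ ∃ A : ℝ, ∀ᶠ B : ℝ in atTop, localProduct a b c B ≤ A) := by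
  have hF' : Pool.Agent.W263.BSD.IsLSeries a b F := hF
  obtain ⟨m, hm⟩ := Pool.Agent.W263.BSD.order_finite hF'
  have hbel : Pool.Agent.W187.UR.S_BEL := Pool.Agent.W187.UR.bel Pool.Agent.W392.UR.fac
  obtain ⟨M, hM⟩ := Pool.Agent.W187.UR.rot_law hF' hbel hm hc
  obtain ⟨hne, hstar⟩ := R376.Ner.locProd2_law hF' hm hc
  obtain ⟨κ, hκ, hN⟩ := R376.Ner.neron a b hΔ
  set l : ℝ := Real.exp (-(m * (Pool.Agent.W187.UR.Lam c).re)) *
    (m.factorial / ‖iteratedDeriv m F 1‖) with hl
  have hl0 : 0 < l := by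
    have h1 : 0 < ‖iteratedDeriv m F 1‖ := norm_pos_iff.2 hne
    have h2 : (0 : ℝ) < m.factorial := by exact_mod_cast m.factorial_pos
    positivity
  have hN' : Tendsto (fun B => (fun B : ℝ => (count a b B : ℝ)) B /
      Real.log B ^ ((rank a b : ℝ) / 2)) atTop (𝓝 κ) := hN
  have hP' : Tendsto (fun B => (fun B : ℝ => correctedProduct a b c B) B / Real.log B ^ m) atTop
      (𝓝 l) := hstar
  have hS : ∀ᶠ B in atTop, |(fun B : ℝ => Pool.Agent.W187.UR.rotSum a b c B) B -
      m * Real.log (Real.log B)| ≤ M := by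
    filter_upwards [eventually_ge_atTop (3 : ℝ)] with B hB
    exact hM B hB
  have hloc : ∀ᶠ B : ℝ in atTop, localProduct a b c B =
      Real.exp ((fun B : ℝ => Pool.Agent.W187.UR.rotSum a b c B) B) := by
    filter_upwards [eventually_gt_atTop (1 : ℝ)] with B hB
    exact R376.Ner.locProd_eq a b c hB
  have hlaw := R376.Ner.law_star hN' hl0 hP'
  obtain ⟨C, hC, hbd⟩ := R376.Ner.law_bdd hκ hN' hS
  have hpos : 0 < κ ^ 2 / l := by positivity
  refine ⟨fun B hB => (R376.Ner.locProd_hasProd a b c hB).multipliable, fun B hB => ?_,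
    m, hm, ⟨κ ^ 2 / l, hpos, hlaw⟩, ⟨C, hC, ?_⟩, ⟨fun h => ⟨C, ?_⟩, ?_⟩, ⟨fun h => ⟨C, ?_⟩, ?_⟩,
    ⟨?_, ?_⟩, ⟨?_, ?_⟩, ?_, ?_⟩
  · have h1 : 1 < Real.exp 1 := Real.one_lt_exp_iff.2 one_pos
    refine (R376.Ner.locProd2_hasProd a b c (h1.trans_le hB) ?_).multipliable
    rw [Real.le_log_iff_exp_le (by linarith)]
    exact hB
  · filter_upwards [hbd, hloc] with B h1 h2
    rw [h2]
    exact h1
  · filter_upwards [R376.Ner.up_of_le hC hbd h, hloc] with B h1 h2
    rw [h2]
    exact h1
  · rintro ⟨A, hA⟩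
    refine R376.Ner.le_of_freq hC hbd (θ := 1 / 2) (by norm_num) (Eventually.frequently ?_)
    have h1 := (R376.Ner.powlog_atTop (show (0 : ℝ) < 1 / 2 by norm_num)).eventually
      (eventually_ge_atTop A)
    filter_upwards [hA, hloc, h1] with B h2 h3 h4
    rw [h3] at h2
    exact h2.trans (mul_le_mul_of_nonneg_right h4 (Real.exp_pos _).le)
  · filter_upwards [R376.Ner.lo_of_ge hC hbd h, hloc] with B h1 h2
    rw [h2]
    exact h1
  · rintro ⟨A, hA⟩
    refine R376.Ner.ge_of_freq hC hbd (θ := 1 / 2) (by norm_num) (Eventually.frequently ?_)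
    have h1 := (R376.Ner.powlog_atTop (show (0 : ℝ) < 1 / 2 by norm_num)).eventually
      (eventually_ge_atTop A)
    filter_upwards [hA, hloc, h1] with B h2 h3 h4
    rw [h3] at h2
    exact h2.trans (mul_le_mul_of_nonneg_right h4 (sq_nonneg _))
  · intro h
    refine ⟨κ ^ 2 / l, hpos, ?_⟩
    refine hlaw.congr fun B => ?_
    rw [h, sub_self, Real.rpow_zero, mul_one]
  · rintro ⟨κ', hκ', hlim⟩
    -- the exponent of the logarithm is zero
    have h1 : Tendsto (fun B : ℝ => Real.log B ^ ((m : ℝ) - rank a b)) atTop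
        (𝓝 (κ ^ 2 / l / κ')) := by
      refine (hlaw.div hlim hκ'.ne').congr' ?_
      filter_upwards [hlim.eventually (lt_mem_nhds hκ')] with B hB
      show (count a b B : ℝ) ^ 2 / correctedProduct a b c B *
        Real.log B ^ ((m : ℝ) - rank a b) / ((count a b B : ℝ) ^ 2 / correctedProduct a b c B) = _
      exact mul_div_cancel_left₀ _ hB.ne'
    have h2 : 0 < κ ^ 2 / l / κ' := by positivity
    rcases lt_trichotomy m (rank a b) with h3 | h3 | h3
    · exfalso
      have h4 : (0 : ℝ) < rank a b - m := by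
        have : (m : ℝ) < rank a b := by exact_mod_cast h3
        linarith
      have h5 := (R376.Ner.powlog_atTop h4).inv_tendsto_atTop
      have h6 : Tendsto (fun B : ℝ => Real.log B ^ ((m : ℝ) - rank a b)) atTop (𝓝 0) := by
        refine h5.congr' ?_
        filter_upwards [Real.tendsto_log_atTop.eventually (eventually_gt_atTop (0 : ℝ))] with B hB
        rw [Pi.inv_apply, ← Real.rpow_neg hB.le]
        congr 1
        ring
      exact h2.ne' (tendsto_nhds_unique h1 h6)
    · exact h3
    · exfalso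
      have h4 : (0 : ℝ) < m - rank a b := by
        have : (rank a b : ℝ) < m := by exact_mod_cast h3
        linarith
      exact not_tendsto_nhds_of_tendsto_atTop (R376.Ner.powlog_atTop h4) _ h1
  · intro h
    refine ⟨1 / 2, by norm_num, Eventually.frequently ?_⟩
    have h1 := (R376.Ner.powlog_atTop (show (0 : ℝ) < 1 / 2 by norm_num)).eventually
      (eventually_ge_atTop C)
    filter_upwards [R376.Ner.up_of_le hC hbd h.ge, R376.Ner.lo_of_ge hC hbd h.le, hloc, h1]
      with B h2 h3 h4 h5
    rw [h4]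
    exact ⟨h2.trans (mul_le_mul_of_nonneg_right h5 (Real.exp_pos _).le),
      h3.trans (mul_le_mul_of_nonneg_right h5 (sq_nonneg _))⟩
  · rintro ⟨θ, hθ, hf⟩
    refine le_antisymm (R376.Ner.ge_of_freq hC hbd hθ ?_) (R376.Ner.le_of_freq hC hbd hθ ?_)
    · refine (hf.and_eventually hloc).mono ?_
      rintro B ⟨⟨-, h1⟩, h2⟩
      rwa [h2] at h1
    · refine (hf.and_eventually hloc).mono ?_
      rintro B ⟨⟨h1, -⟩, h2⟩
      rwa [h2] at h1
  · have hfg : AddGroup.FG (Points a b) := (R376.Ner.exists_embed a b hΔ).1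
    have hmf : Module.Finite ℤ (Points a b) := Module.Finite.iff_addGroup_fg.mpr hfg
    have h1 : rank a b = 0 ↔ Finite (Points a b) := by
      unfold rank
      constructor
      · intro h
        have h2 : Module.IsTorsion ℤ (Points a b) := Module.finrank_eq_zero_iff_isTorsion.1 h
        exact Module.finite_of_fg_torsion _ h2
      · intro h
        refine Module.finrank_eq_zero_iff_isTorsion.2 ?_
        intro x
        have := isOfFinAddOrder_of_finite x
        rw [isOfFinAddOrder_iff_nsmul_eq_zero] at this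
        obtain ⟨k, hk, hx⟩ := this
        refine ⟨⟨(k : ℤ), mem_nonZeroDivisors_of_ne_zero (by exact_mod_cast hk.ne')⟩, ?_⟩
        show (k : ℤ) • x = 0
        rw [natCast_zsmul]
        exact hx
    rw [← R376.Ner.bdd_count_iff hκ hN', h1, not_finite_iff_infinite]
  · have h1 : F 1 = 0 ↔ ¬ m = 0 := by
      have h2 : analyticOrderAt F 1 = 0 ↔ F 1 ≠ 0 := by
        refine AnalyticAt.analyticOrderAt_eq_zero ?_
        exact hF.1.analyticAt 1
      rw [hm] at h2
      have h3 : ((m : ℕ∞) = 0) ↔ m = 0 := by exact_mod_cast Iff.rfl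
      rw [h3] at h2
      rw [h2, not_not]
    rw [h1, R376.Ner.bdd_prod_iff hS]
    refine not_congr (exists_congr fun A => ?_)
    constructor
    · intro h
      filter_upwards [h, hloc] with B h2 h3
      rw [h3]
      exact h2
    · intro h
      filter_upwards [h, hloc] with B h2 h3
      rw [h3] at h2
      exact h2

end Pool.Agent.Results.MP_8b7eba_nt.CountingForm
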