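import Pool.Agent.R413.SQ.Weak
import Pool.Agent.R413.SQ.Low2

/-!
The weak Birch and Swinnerton-Dyer conjecture (with the entire `L`-function, its nonvanishing at `1`
and the finiteness of the rational points all proved) for the quadratic twists of `X_0(49)` by
the squarefree `D ≥ 1` all of whose prime factors are `≡ 1 mod 4` (the full class: the primes which
are inert in `ℚ(√-7)` and those which split, in any number).

`E D : y² = x³ - 35 D² x - 98 D³` is the twist by `D` of `X_0(49)`. `E D` has finitely many rational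
points and no element of order two in `Ш` if and only if an explicit matrix `mat D` over `𝔽₂` (rows
and columns: the prime factors of `D` which split in `ℚ(√-7)`) is nonsingular; then the Euler
product of the frozen statement extends to an entire function, which does not vanish at `1`, and the
set of the rational points is finite. This happens for exactly the proportion
`∏_{i ≥ 0} (1 - 2^{-(2i+1)}) = 0.4194...` of the `D` of the class, and for at least
`c X / √(log X)` of the `D ≤ X`.

The criterion and the nonvanishing for a single `D` are from `MP_4a9ea6_nt/TwoPartTwistsX49`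
(helper428, after `Pool/Agent/Y698`); there the exact proportion is proved in a subclass
(`D ≡ 1 mod 8`, primes `1 mod 8` and split or `5 mod 8` and inert), by the starting theorem of
project CQ. The proportion in the full class is `Pool/Agent/R413/SQ`, an adaptation of project CQ
(helpers 710, 356, 839, 948, 219, 657, 302, 697, 391, 488, 475, 362, 949, 405, 514 and 703).
-/

set_option autoImplicit false

open Finset

namespace Pool.Agent.Results.MP_8b7eba_nt.FullClassProportionX49

/-- coefficient of the twist `E_D : y² = x³ + A D x + B D` of `X_0(49)` -/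
def A (D : ℕ) : ℤ := -35 * (D : ℤ) ^ 2

/-- coefficient of the twist `E_D : y² = x³ + A D x + B D` of `X_0(49)` -/
def B (D : ℕ) : ℤ := -98 * (D : ℤ) ^ 3

/-- the curve `E_D` over `ℚ` -/
def E (D : ℕ) : WeierstrassCurve ℚ :=
  { a₁ := 0, a₂ := 0, a₃ := 0, a₄ := (A D : ℚ), a₆ := (B D : ℚ) }

/-- `E_D(ℚ)` is finite and `Ш(E_D/ℚ)` has no element of order two -/
def RankZeroShaTwo (D : ℕ) : Prop :=
  Finite (E D).toAffine.Point ∧ ∀ x : Pool.Agent.TH841.NF.D.Sha (E D), 2 • x = 0 → x = 0

/-- `f` is an entire function which equals on `Re s > 3 / 2` the Euler product of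
`y² = x³ + a x + b` over the primes `p ∤ 2 (4 a³ + 27 b²)`, as in the frozen statement -/
def IsL (a b : ℤ) (f : ℂ → ℂ) : Prop :=
  Differentiable ℂ f ∧ ∀ s : ℂ, (3 : ℝ) / 2 < s.re →
    HasProd
      (fun p : {p : ℕ // p.Prime ∧ ¬ ((p : ℤ) ∣ 2 * (4 * a ^ 3 + 27 * b ^ 2))} =>
        ((1 : ℂ)
          - ((((p.1 : ℤ) - (Nat.card {q : ZMod p.1 × ZMod p.1 //
                q.2 ^ 2 = q.1 ^ 3 + (a : ZMod p.1) * q.1 + (b : ZMod p.1)} : ℤ)) : ℤ) : ℂ)
              * ((p.1 : ℂ) ^ (-s))
          + (p.1 : ℂ) ^ (1 - 2 * s))⁻¹)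
      (f s)

/-- the conclusion of the frozen statement for `y² = x³ + a x + b`, in the case of rank zero: the
`L`-function exists, it does not vanish at `1`, and there are finitely many rational points -/
def WeakRankZero (a b : ℤ) : Prop :=
  4 * a ^ 3 + 27 * b ^ 2 ≠ 0 ∧ (∃ f : ℂ → ℂ, IsL a b f) ∧ (∀ f : ℂ → ℂ, IsL a b f → f 1 ≠ 0) ∧
    {q : ℚ × ℚ | q.2 ^ 2 = q.1 ^ 3 + (a : ℚ) * q.1 + (b : ℚ)}.Finite

/-- the class: `D` is squarefree and all its prime factors are `1` modulo `4` -/
def Family (D : ℕ) : Prop := Squarefree D ∧ ∀ p ∈ D.primeFactors, p % 4 = 1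

open Classical in
/-- the prime factors of `D` which split in `ℚ(√-7)` -/
noncomputable def split (D : ℕ) : Finset ℕ := D.primeFactors.filter fun p => IsSquare (-7 : ZMod p)

open Classical in
/-- `1` if `m` is not a square modulo `p`, and `0` if it is -/
noncomputable def nonsq (p m : ℕ) : ZMod 2 := if IsSquare (m : ZMod p) then 0 else 1

open Classical in
/-- `1` if `-7` is not a fourth power modulo `p`, and `0` if it is -/
noncomputable def nonfourth (p : ℕ) : ZMod 2 := if ∃ y : ZMod p, y ^ 4 = -7 then 0 else 1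

/-- the matrix over the field with two elements, with rows and columns indexed by the prime factors
of `D` which split in `ℚ(√-7)`: the entry at `(i, j)` is `nonsq i j` for `i ≠ j`, and the entry at
`(i, i)` is the sum of `nonfourth i` and of the `nonsq i l` for all prime factors `l ≠ i` of `D` -/
noncomputable def mat (D : ℕ) : Matrix (split D) (split D) (ZMod 2) := Matrix.of fun i j =>
  if i = j then nonfourth i + ∑ l ∈ D.primeFactors.erase i, nonsq i l else nonsq i j

open Classical in
/-- the number of the `D ≤ X` of the class -/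
noncomputable def total (X : ℕ) : ℕ := ((Icc 1 X).filter fun D => Family D).card

open Classical in
/-- the number of those with `E_D(ℚ)` finite and `Ш(E_D/ℚ)[2] = 0` -/
noncomputable def good (X : ℕ) : ℕ :=
  ((Icc 1 X).filter fun D => Family D ∧ RankZeroShaTwo D).card

theorem crit {D : ℕ} (h : Family D) : RankZeroShaTwo D ↔ (mat D).det ≠ 0 :=
  Pool.Agent.R413.SQ.Cor.crit h

theorem gd {D : ℕ} (h : Family D) :
    RankZeroShaTwo D ↔ Pool.Agent.R413.SQ.Gd Pool.Agent.Y698.SG.n4 D.primeFactors :=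
  (Pool.Agent.R413.SQ.Cor.crit h).trans (Pool.Agent.R413.SQ.Cor.det_iff h)

theorem weak_of {D : ℕ} (h : Family D) (hR : RankZeroShaTwo D) : WeakRankZero (A D) (B D) := by
  obtain ⟨⟨f, h1, h2, h3⟩, h4⟩ := Pool.Agent.R413.SQ.Cor.weak h ((crit h).1 hR)
  refine ⟨?_, ⟨f, h1, h2⟩, ?_, h4⟩
  · have e : 4 * A D ^ 3 + 27 * B D ^ 2 = 2 ^ 8 * 7 ^ 3 * (D : ℤ) ^ 6 := by
      unfold A B
      ring
    rw [e]
    have hD : (D : ℤ) ≠ 0 := by exact_mod_cast h.1.ne_zero
    exact mul_ne_zero (by norm_num) (pow_ne_zero 6 hD)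
  · rintro g ⟨hg1, hg2⟩
    rw [Pool.Agent.Y687.unique_f hg1 h1 hg2 h2]
    exact h3

theorem result :
    (∀ D : ℕ, Family D → (RankZeroShaTwo D ↔ (mat D).det ≠ 0)) ∧
    (∀ D : ℕ, Family D → RankZeroShaTwo D → WeakRankZero (A D) (B D)) ∧
    Filter.Tendsto (fun X : ℕ => (good X : ℝ) / (total X : ℝ))
      Filter.atTop (nhds (∏' i : ℕ, (1 - (1 / 2 : ℝ) ^ (2 * i + 1)))) ∧
    ∃ (c : ℝ) (X₀ : ℕ), 0 < c ∧ ∀ X : ℕ, X₀ ≤ X → c * X / Real.sqrt (Real.log X) ≤ (good X : ℝ) := by
  classical
  have hg : ∀ X : ℕ, good X = ((Icc 1 X).filter fun D => Squarefree D ∧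
      Pool.Agent.R413.SQ.Cl ∅ ∅ D.primeFactors ∧
      Pool.Agent.R413.SQ.Gd Pool.Agent.Y698.SG.n4 D.primeFactors).card := by
    intro X
    unfold good
    refine congrArg Finset.card (Finset.filter_congr fun D _ => ?_)
    constructor
    · rintro ⟨h1, h2⟩
      exact ⟨h1.1, ((Pool.Agent.R413.SQ.Cor.cl_iff D).1 h1).2, (gd h1).1 h2⟩
    · rintro ⟨h1, h2, h3⟩
      have h4 : Family D := (Pool.Agent.R413.SQ.Cor.cl_iff D).2 ⟨h1, h2⟩
      exact ⟨h4, (gd h4).2 h3⟩
  have ht : ∀ X : ℕ, total X = ((Icc 1 X).filter fun D => Squarefree D ∧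
      Pool.Agent.R413.SQ.Cl ∅ ∅ D.primeFactors).card := by
    intro X
    unfold total
    exact congrArg Finset.card (Finset.filter_congr fun D _ => Pool.Agent.R413.SQ.Cor.cl_iff D)
  refine ⟨fun D h => crit h, fun D h hR => weak_of h hR, ?_, ?_⟩
  · have h := Pool.Agent.R413.SQ.t_DEN ∅ ∅ Pool.Agent.Y698.SG.n4 trivial
    unfold Pool.Agent.Y703.CQ.c2 at h
    simp only [hg, ht]
    exact h
  · obtain ⟨c, X₀, hc, h⟩ := Pool.Agent.R413.SQ.good_ge Pool.Agent.Y698.SG.n4
    refine ⟨c, X₀, hc, fun X hX => ?_⟩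
    rw [hg]
    exact h X hX

end Pool.Agent.Results.MP_8b7eba_nt.FullClassProportionX49
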